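import Pool.Agent.W307.AT.Stm

/-!
# AT-DSC: the part of `E(F)` belonging to a quadratic character and the points of the twist
-/

set_option autoImplicit false

namespace Pool.Agent.W605.AT

open WeierstrassCurve Pool.Agent.W307.RT Pool.Agent.W307.AT

section gen

variable {F : Type} [Field F] [DecidableEq F]

/-- scaling -/
structure Sc (W W' : WeierstrassCurve.Affine F) (u : F) : Prop where
  h1 : W'.a₁ = u * W.a₁
  h2 : W'.a₂ = u ^ 2 * W.a₂
  h3 : W'.a₃ = u ^ 3 * W.a₃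
  h4 : W'.a₄ = u ^ 4 * W.a₄
  h6 : W'.a₆ = u ^ 6 * W.a₆
  hu : u ≠ 0

variable {W W' : WeierstrassCurve.Affine F} {u : F}

omit [DecidableEq F] in
lemma Sc.eqn (h : Sc W W' u) {x y : F} :
    W'.Equation (u ^ 2 * x) (u ^ 3 * y) ↔ W.Equation x y := by
  rw [Affine.equation_iff', Affine.equation_iff', h.h1, h.h2, h.h3, h.h4, h.h6]
  have e : (u ^ 3 * y) ^ 2 + u * W.a₁ * (u ^ 2 * x) * (u ^ 3 * y) + u ^ 3 * W.a₃ * (u ^ 3 * y) -
      ((u ^ 2 * x) ^ 3 + u ^ 2 * W.a₂ * (u ^ 2 * x) ^ 2 + u ^ 4 * W.a₄ * (u ^ 2 * x) +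
        u ^ 6 * W.a₆) =
      u ^ 6 * (y ^ 2 + W.a₁ * x * y + W.a₃ * y - (x ^ 3 + W.a₂ * x ^ 2 + W.a₄ * x + W.a₆)) := by
    ring
  rw [e, mul_eq_zero, or_iff_right (pow_ne_zero 6 h.hu)]

omit [DecidableEq F] in
lemma Sc.non (h : Sc W W' u) {x y : F} :
    W'.Nonsingular (u ^ 2 * x) (u ^ 3 * y) ↔ W.Nonsingular x y := by
  rw [Affine.nonsingular_iff', Affine.nonsingular_iff', h.eqn, h.h1, h.h2, h.h3, h.h4]
  have e1 : u * W.a₁ * (u ^ 3 * y) - (3 * (u ^ 2 * x) ^ 2 + 2 * (u ^ 2 * W.a₂) * (u ^ 2 * x) +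
      u ^ 4 * W.a₄) = u ^ 4 * (W.a₁ * y - (3 * x ^ 2 + 2 * W.a₂ * x + W.a₄)) := by ring
  have e2 : 2 * (u ^ 3 * y) + u * W.a₁ * (u ^ 2 * x) + u ^ 3 * W.a₃ =
      u ^ 3 * (2 * y + W.a₁ * x + W.a₃) := by ring
  rw [e1, e2, mul_ne_zero_iff, mul_ne_zero_iff, and_iff_right (pow_ne_zero 4 h.hu),
    and_iff_right (pow_ne_zero 3 h.hu)]

omit [DecidableEq F] in
lemma Sc.negY (h : Sc W W' u) (x y : F) :
    W'.negY (u ^ 2 * x) (u ^ 3 * y) = u ^ 3 * W.negY x y := by
  rw [Affine.negY, Affine.negY, h.h1, h.h3]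
  ring

lemma Sc.slope (h : Sc W W' u) (x₁ x₂ y₁ y₂ : F) :
    W'.slope (u ^ 2 * x₁) (u ^ 2 * x₂) (u ^ 3 * y₁) (u ^ 3 * y₂) = u * W.slope x₁ x₂ y₁ y₂ := by
  have hu := h.hu
  by_cases hx : x₁ = x₂
  · subst hx
    by_cases hy : y₁ = W.negY x₁ y₂
    · rw [Affine.slope_of_Y_eq rfl hy, Affine.slope_of_Y_eq rfl (by rw [h.negY, hy]), mul_zero]
    · rw [Affine.slope_of_Y_ne rfl hy, Affine.slope_of_Y_ne rfl
        (by rw [h.negY]; exact fun e => hy (mul_left_cancel₀ (pow_ne_zero 3 hu) e)), h.negY,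
        h.h1, h.h2, h.h4, ← mul_sub]
      have e : 3 * (u ^ 2 * x₁) ^ 2 + 2 * (u ^ 2 * W.a₂) * (u ^ 2 * x₁) + u ^ 4 * W.a₄ -
          u * W.a₁ * (u ^ 3 * y₁) =
          u ^ 3 * (u * (3 * x₁ ^ 2 + 2 * W.a₂ * x₁ + W.a₄ - W.a₁ * y₁)) := by ring
      rw [e, mul_div_mul_left _ _ (pow_ne_zero 3 hu), mul_div_assoc]
  · rw [Affine.slope_of_X_ne hx, Affine.slope_of_X_ne
      (fun e => hx (mul_left_cancel₀ (pow_ne_zero 2 hu) e)), ← mul_sub, ← mul_sub,
      show u ^ 3 * (y₁ - y₂) = u ^ 2 * (u * (y₁ - y₂)) by ring,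
      mul_div_mul_left _ _ (pow_ne_zero 2 hu), mul_div_assoc]

omit [DecidableEq F] in
lemma Sc.addX (h : Sc W W' u) (x₁ x₂ l : F) :
    W'.addX (u ^ 2 * x₁) (u ^ 2 * x₂) (u * l) = u ^ 2 * W.addX x₁ x₂ l := by
  rw [Affine.addX, Affine.addX, h.h1, h.h2]
  ring

omit [DecidableEq F] in
lemma Sc.addY (h : Sc W W' u) (x₁ x₂ y₁ l : F) :
    W'.addY (u ^ 2 * x₁) (u ^ 2 * x₂) (u ^ 3 * y₁) (u * l) = u ^ 3 * W.addY x₁ x₂ y₁ l := by
  rw [Affine.addY, Affine.addY, Affine.negAddY, Affine.negAddY, h.addX, ← h.negY]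
  congr 1
  ring

open scoped Classical in
/-- the map -/
noncomputable def sc (W W' : WeierstrassCurve.Affine F) (u : F) : W.Point → W'.Point
  | .zero => .zero
  | .some x y _ =>
    if h' : W'.Nonsingular (u ^ 2 * x) (u ^ 3 * y) then .some _ _ h' else .zero

omit [DecidableEq F] in
lemma sc_zero : sc W W' u 0 = 0 := rfl

omit [DecidableEq F] in
lemma sc_some (h : Sc W W' u) {x y : F} (h0 : W.Nonsingular x y) :
    sc W W' u (.some x y h0) = .some _ _ (h.non.2 h0) := by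
  simp only [sc]
  rw [dif_pos]

omit [DecidableEq F] in
lemma some_congr {x y x' y' : F} (h : W.Nonsingular x y) (h' : W.Nonsingular x' y')
    (hx : x = x') (hy : y = y') : Affine.Point.some x y h = Affine.Point.some x' y' h' := by
  subst hx hy
  rfl

lemma sc_add (h : Sc W W' u) (P Q : W.Point) :
    sc W W' u (P + Q) = sc W W' u P + sc W W' u Q := by
  rcases P with _ | ⟨x₁, y₁, h₁⟩
  · change sc W W' u (0 + Q) = sc W W' u 0 + _
    rw [zero_add, sc_zero, zero_add]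
  rcases Q with _ | ⟨x₂, y₂, h₂⟩
  · change sc W W' u (_ + 0) = _ + sc W W' u 0
    rw [add_zero, sc_zero, add_zero]
  by_cases hxy : x₁ = x₂ ∧ y₁ = W.negY x₂ y₂
  · rw [Affine.Point.add_of_Y_eq hxy.1 hxy.2, sc_zero, sc_some h, sc_some h,
      Affine.Point.add_of_Y_eq (by rw [hxy.1]) (by rw [h.negY, hxy.2])]
  · rw [Affine.Point.add_some hxy, sc_some h, sc_some h, sc_some h, Affine.Point.add_some]
    · apply some_congr
      · rw [h.slope, h.addX]
      · rw [h.slope, h.addY]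
    · rintro ⟨e1, e2⟩
      rw [h.negY] at e2
      exact hxy ⟨mul_left_cancel₀ (pow_ne_zero 2 h.hu) e1, mul_left_cancel₀ (pow_ne_zero 3 h.hu) e2⟩

omit [DecidableEq F] in
lemma sc_inj (h : Sc W W' u) : Function.Injective (sc W W' u) := by
  intro P Q e
  rcases P with _ | ⟨x₁, y₁, h₁⟩ <;> rcases Q with _ | ⟨x₂, y₂, h₂⟩
  · rfl
  · rw [sc_some h] at e
    exact absurd e.symm (Affine.Point.some_ne_zero _)
  · rw [sc_some h] at e
    exact absurd e (Affine.Point.some_ne_zero _)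
  · rw [sc_some h, sc_some h] at e
    simp only [Affine.Point.some.injEq] at e
    exact some_congr _ _ (mul_left_cancel₀ (pow_ne_zero 2 h.hu) e.1)
      (mul_left_cancel₀ (pow_ne_zero 3 h.hu) e.2)

end gen

theorem scE (A B D : ℤ) (hD : D ≠ 0) (L : Type) [Field L] [Algebra ℚ L] (s : L)
    (hs : s ^ 2 = (D : L)) :
    Sc (((Sh A B).baseChange L).toAffine) (((Sh (D ^ 2 * A) (D ^ 3 * B)).baseChange L).toAffine)
      s := by
  have : CharZero L := algebraRat.charZero L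
  have hD' : (D : L) ≠ 0 := by exact_mod_cast hD
  have h4 : s ^ 4 = (D : L) ^ 2 := by rw [← hs]; ring
  have h6 : s ^ 6 = (D : L) ^ 3 := by rw [← hs]; ring
  constructor
  · simp [Sh, WeierstrassCurve.baseChange, WeierstrassCurve.map]
  · simp [Sh, WeierstrassCurve.baseChange, WeierstrassCurve.map]
  · simp [Sh, WeierstrassCurve.baseChange, WeierstrassCurve.map]
  · simp only [Sh, WeierstrassCurve.baseChange, WeierstrassCurve.map]
    push_cast
    simp only [map_mul, map_pow, map_intCast]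
    rw [h4]
  · simp only [Sh, WeierstrassCurve.baseChange, WeierstrassCurve.map]
    push_cast
    simp only [map_mul, map_pow, map_intCast]
    rw [h6]
  · rintro rfl
    rw [zero_pow two_ne_zero] at hs
    exact hD' hs.symm

/-- the coordinates of a point in the part of `χ` -/
theorem part_some (F : Type) [Field F] [NumberField F] (χ : (F ≃ₐ[ℚ] F) →* ℤˣ) (A B : ℤ) {x y : F}
    (h0 : ((Sh A B).baseChange F).toAffine.Nonsingular x y)
    (hP : Affine.Point.some x y h0 ∈ Part F χ (Sh A B)) (σ : F ≃ₐ[ℚ] F) :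
    σ x = x ∧ σ y = (((χ σ : ℤˣ) : ℤ) : F) * y := by
  classical
  have h1 := hP σ
  rw [Affine.Point.map_some] at h1
  rcases Int.units_eq_one_or (χ σ) with h2 | h2
  · rw [h2] at h1 ⊢
    rw [Units.val_one, one_smul, Affine.Point.some.injEq] at h1
    refine ⟨h1.1, ?_⟩
    rw [Units.val_one, Int.cast_one, one_mul]
    exact h1.2
  · rw [h2] at h1 ⊢
    rw [Units.val_neg, Units.val_one, neg_smul, one_smul, Affine.Point.neg_some,
      Affine.Point.some.injEq] at h1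
    refine ⟨h1.1, ?_⟩
    rw [Units.val_neg, Units.val_one, Int.cast_neg, Int.cast_one, neg_mul, one_mul]
    have h3 := h1.2
    rw [Affine.negY] at h3
    have e1 : (((Sh A B).baseChange F).toAffine).a₁ = 0 := by
      simp [Sh, WeierstrassCurve.baseChange, WeierstrassCurve.map]
    have e3 : (((Sh A B).baseChange F).toAffine).a₃ = 0 := by
      simp [Sh, WeierstrassCurve.baseChange, WeierstrassCurve.map]
    rw [e1, e3, zero_mul, sub_zero, sub_zero] at h3
    exact h3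

open Classical in
theorem dsc : DSC := by
  intro F _ _ _ χ D s hD hs hσ A B
  have h := scE A B D hD F s hs
  obtain ⟨W', hW'⟩ : ∃ W' : WeierstrassCurve ℚ, W' = Sh (D ^ 2 * A) (D ^ 3 * B) := ⟨_, rfl⟩
  rw [← hW'] at h ⊢
  let j : (W'.baseChange ℚ).toAffine.Point →+ (W'.baseChange F).toAffine.Point :=
    Affine.Point.map (W' := W'.toAffine) (Algebra.ofId ℚ F)
  have hj : Function.Injective j := Affine.Point.map_injective _
  let ψ0 : ((Sh A B).baseChange F).toAffine.Point →+ (W'.baseChange F).toAffine.Point :=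
    AddMonoidHom.mk' (sc _ _ s) (sc_add h)
  let ψ : Part F χ (Sh A B) →+ (W'.baseChange F).toAffine.Point :=
    ψ0.comp (Part F χ (Sh A B)).subtype
  have hψ : Function.Injective ψ := by
    intro P Q hPQ
    apply Subtype.ext
    exact sc_inj h hPQ
  have hr : ∀ P, ψ P ∈ j.range := by
    rintro ⟨P, hP⟩
    rcases P with _ | ⟨x, y, h0⟩
    · exact ⟨0, rfl⟩
    · have hxy := part_some F χ A B h0 hP
      have hχ : ∀ σ : F ≃ₐ[ℚ] F, (((χ σ : ℤˣ) : ℤ) : F) ^ 2 = 1 := by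
        intro σ
        rcases Int.units_eq_one_or (χ σ) with h2 | h2 <;> rw [h2] <;> simp
      have hx : s ^ 2 * x ∈ Set.range (algebraMap ℚ F) := by
        rw [IsGalois.mem_range_algebraMap_iff_fixed]
        intro σ
        rw [map_mul, map_pow, hσ σ, (hxy σ).1, mul_pow, hχ σ, one_mul]
      have hy : s ^ 3 * y ∈ Set.range (algebraMap ℚ F) := by
        rw [IsGalois.mem_range_algebraMap_iff_fixed]
        intro σ
        rw [map_mul, map_pow, hσ σ, (hxy σ).2]
        linear_combination ((((χ σ : ℤˣ) : ℤ) : F) ^ 2 + 1) * s ^ 3 * y * hχ σ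
      obtain ⟨q1, hq1⟩ := hx
      obtain ⟨q2, hq2⟩ := hy
      have hns : (W'.baseChange F).toAffine.Nonsingular ((Algebra.ofId ℚ F) q1)
          ((Algebra.ofId ℚ F) q2) := by
        have e1 : (Algebra.ofId ℚ F) q1 = s ^ 2 * x := hq1
        have e2 : (Algebra.ofId ℚ F) q2 = s ^ 3 * y := hq2
        rw [e1, e2]
        exact h.non.2 h0
      have hn : (W'.baseChange ℚ).toAffine.Nonsingular q1 q2 :=
        (W'.toAffine.baseChange_nonsingular (Algebra.ofId ℚ F).injective q1 q2).1 hns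
      refine ⟨.some q1 q2 hn, ?_⟩
      have e1 : j (.some q1 q2 hn) = .some _ _ hns := rfl
      have e2 : ψ ⟨.some x y h0, hP⟩ = .some _ _ (h.non.2 h0) := sc_some h h0
      rw [e1, e2]
      exact some_congr _ _ hq1 hq2
  let e := AddMonoidHom.ofInjective hj
  let φ0 : Part F χ (Sh A B) →+ (W'.baseChange ℚ).toAffine.Point :=
    (e.symm.toAddMonoidHom).comp (ψ.codRestrict j.range hr)
  have hφ0 : Function.Injective φ0 := by
    intro P Q hPQ
    have h1 : ψ.codRestrict j.range hr P = ψ.codRestrict j.range hr Q := e.symm.injective hPQ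
    exact hψ (congrArg Subtype.val h1)
  have key : ∀ (W₁ : WeierstrassCurve ℚ), W₁ = W' →
      (∃ φ : Part F χ (Sh A B) →+ W₁.toAffine.Point, Function.Injective φ) →
      ∃ φ : Part F χ (Sh A B) →+ W'.toAffine.Point, Function.Injective φ := by
    rintro _ rfl h1
    exact h1
  have hid : W'.baseChange ℚ = W' := by
    rw [hW']
    simp [Sh, WeierstrassCurve.baseChange, WeierstrassCurve.map]
  exact key _ hid ⟨φ0, hφ0⟩

end Pool.Agent.W605.AT
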